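import Mathlib

set_option autoImplicit false
open MeasureTheory Filter Topology
open scoped ENNReal

namespace Pool.Agent.Results.MP_0c3574_an.WrePwmRwm

universe v

section Definitions

variable {X : Type v} [MeasurableSpace X]

/-- The number `u_i(F) = μ(T^i F ∩ F) / μ(F)^2`. -/
noncomputable def u (μ : Measure X) (T : X ≃ᵐ X) (F : Set X) (i : ℕ) : ℝ :=
  μ.real ((⇑T)^[i] '' F ∩ F) / μ.real F ^ 2

/-- The number `a_n(F) = u_0(F) + ... + u_{n-1}(F)`. -/
noncomputable def a (μ : Measure X) (T : X ≃ᵐ X) (F : Set X) (n : ℕ) : ℝ :=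
  ∑ i ∈ Finset.range n, u μ T F i

/-- Weak rational ergodicity. -/
def WeaklyRationallyErgodic (μ : Measure X) (T : X ≃ᵐ X) : Prop :=
  ∃ F : Set X, MeasurableSet F ∧ 0 < μ F ∧ μ F < ∞ ∧
    ∀ A B : Set X, MeasurableSet A → MeasurableSet B → A ⊆ F → B ⊆ F →
      Tendsto (fun n : ℕ =>
          1 / a μ T F n * ∑ i ∈ Finset.range n, μ.real ((⇑T)^[i] '' A ∩ B))
        atTop (𝓝 (μ.real A * μ.real B))

/-- Rational weak mixing. -/
def RationallyWeaklyMixing (μ : Measure X) (T : X ≃ᵐ X) : Prop :=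
  ∃ F : Set X, MeasurableSet F ∧ 0 < μ F ∧ μ F < ∞ ∧
    ∀ A B : Set X, MeasurableSet A → MeasurableSet B → A ⊆ F → B ⊆ F →
      Tendsto (fun n : ℕ =>
          1 / a μ T F n * ∑ i ∈ Finset.range n,
            |μ.real ((⇑T)^[i] '' A ∩ B) - μ.real A * μ.real B * u μ T F i|)
        atTop (𝓝 0)

/-- The integer power `T^k` as a map. -/
def zp (T : X ≃ᵐ X) (k : ℤ) : X → X := ⇑((T.toEquiv : Equiv.Perm X) ^ k)

/-- Power weak mixing: all products of nonzero integer powers are ergodic. -/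
def PowerWeaklyMixing (μ : Measure X) (T : X ≃ᵐ X) : Prop :=
  ∀ r : ℕ, 1 ≤ r → ∀ k : Fin r → ℤ, (∀ j, k j ≠ 0) →
    Ergodic (fun (x : Fin r → X) (j : Fin r) => zp T (k j) (x j)) (Measure.pi fun _ => μ)

end Definitions

section Basic

variable {X : Type v} [MeasurableSpace X]

/-- an integrable function with zero integral over all rectangles vanishes -/
lemma ae_zero_of_rect {μ1 μ2 : Measure X} [IsFiniteMeasure μ1] [IsFiniteMeasure μ2]
    (k : X × X → ℝ) (hk : Integrable k (μ1.prod μ2))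
    (h : ∀ C D : Set X, MeasurableSet C → MeasurableSet D →
      ∫ p in C ×ˢ D, k p ∂(μ1.prod μ2) = 0) : k =ᵐ[μ1.prod μ2] 0 := by
  refine hk.ae_eq_zero_of_forall_setIntegral_eq_zero (fun s hs _ => ?_)
  induction s, hs using MeasurableSpace.induction_on_inter generateFrom_prod.symm isPiSystem_prod with
  | empty => simp
  | basic t ht =>
    obtain ⟨C, hC, D, hD, rfl⟩ := ht
    exact h C D hC hD
  | compl t ht ih =>
    have h1 := integral_add_compl ht hk
    have h2 := h Set.univ Set.univ MeasurableSet.univ MeasurableSet.univ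
    rw [Set.univ_prod_univ, Measure.restrict_univ] at h2
    rw [ih (measure_lt_top _ _), h2, zero_add] at h1
    exact h1
  | iUnion f hd hf ih =>
    rw [integral_iUnion hf hd hk.integrableOn]
    simp only [fun i => ih i (measure_lt_top _ _), tsum_zero]

variable (T : X ≃ᵐ X)

lemma zp_zero : zp T 0 = id := by
  unfold zp; simp

lemma zp_add (m n : ℤ) : zp T (m + n) = zp T m ∘ zp T n := by
  unfold zp
  rw [_root_.zpow_add, Equiv.Perm.coe_mul]

lemma zp_one : zp T 1 = ⇑T := by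
  unfold zp
  rw [zpow_one]; rfl

lemma zp_neg_one : zp T (-1) = ⇑T.symm := by
  unfold zp
  rw [zpow_neg_one]; rfl

lemma zp_nat (n : ℕ) : zp T n = (⇑T)^[n] := by
  unfold zp
  rw [zpow_natCast, ← Equiv.Perm.iterate_eq_pow]; rfl

variable {μ : Measure X}

lemma zp_mp (hT : MeasurePreserving T μ μ) (n : ℤ) : MeasurePreserving (zp T n) μ μ := by
  induction n using Int.induction_on with
  | zero => rw [zp_zero]; exact MeasurePreserving.id μ
  | succ i ih => rw [zp_add, zp_one]; exact ih.comp hT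
  | pred i ih =>
    rw [sub_eq_add_neg, zp_add, zp_neg_one]
    exact ih.comp (MeasurePreserving.symm T hT)

lemma zp_neg_cancel (n : ℤ) (x : X) : zp T (-n) (zp T n x) = x := by
  have h := zp_add T (-n) n
  rw [neg_add_cancel, zp_zero] at h
  exact (congrFun h x).symm

lemma zp_cancel_neg (n : ℤ) (x : X) : zp T n (zp T (-n) x) = x := by
  have h := zp_add T n (-n)
  rw [add_neg_cancel, zp_zero] at h
  exact (congrFun h x).symm

lemma image_inter_real (hT : MeasurePreserving T μ μ) (i : ℕ) {C D : Set X}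
    (hC : MeasurableSet C) (hD : MeasurableSet D) :
    μ.real ((⇑T)^[i] '' C ∩ D) = μ.real (C ∩ (⇑T)^[i] ⁻¹' D) := by
  rw [← zp_nat]
  have e : zp T i '' C = zp T (-i) ⁻¹' C :=
    congrFun (Set.image_eq_preimage_of_inverse (zp_neg_cancel T i) (zp_cancel_neg T i)) C
  have hm := zp_mp T hT i
  have hm' := zp_mp T hT (-i)
  have e2 : C ∩ zp T i ⁻¹' D = zp T i ⁻¹' (zp T i '' C ∩ D) := by
    ext x
    simp only [Set.mem_inter_iff, Set.mem_preimage, e, zp_neg_cancel]
  rw [e2, measureReal_def, measureReal_def, hm.measure_preimage]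
  rw [e]
  exact ((hm'.measurable hC).inter hD).nullMeasurableSet

end Basic

section Rect

variable {X : Type v} [MeasurableSpace X]

/-- `r` is a finite combination of indicators of measurable rectangles inside `F × F`. -/
def Rep (F : Set X) (r : X × X → ℝ) : Prop :=
  ∃ (ι : Type) (_ : Fintype ι) (b : ι → ℝ) (C D : ι → Set X),
    (∀ l, MeasurableSet (C l)) ∧ (∀ l, MeasurableSet (D l)) ∧ (∀ l, C l ⊆ F) ∧ (∀ l, D l ⊆ F) ∧
    r = fun p => ∑ l, b l * (C l ×ˢ D l).indicator (fun _ => (1 : ℝ)) p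

lemma Rep.add {F : Set X} {r s : X × X → ℝ} (hr : Rep F r) (hs : Rep F s) :
    Rep F (fun p => r p + s p) := by
  obtain ⟨ι, _, b, C, D, h1, h2, h3, h4, rfl⟩ := hr
  obtain ⟨κ, _, b', C', D', h1', h2', h3', h4', rfl⟩ := hs
  refine ⟨ι ⊕ κ, inferInstance, Sum.elim b b', Sum.elim C C', Sum.elim D D', ?_, ?_, ?_, ?_, ?_⟩
  · rintro (l | l); exacts [h1 l, h1' l]
  · rintro (l | l); exacts [h2 l, h2' l]
  · rintro (l | l); exacts [h3 l, h3' l]
  · rintro (l | l); exacts [h4 l, h4' l]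
  · funext p
    rw [Fintype.sum_sum_type]
    rfl

lemma Rep.smul {F : Set X} {r : X × X → ℝ} (hr : Rep F r) (c : ℝ) :
    Rep F (fun p => c * r p) := by
  obtain ⟨ι, _, b, C, D, h1, h2, h3, h4, rfl⟩ := hr
  refine ⟨ι, inferInstance, fun l => c * b l, C, D, h1, h2, h3, h4, ?_⟩
  funext p
  rw [Finset.mul_sum]
  exact Finset.sum_congr rfl (fun l _ => by ring)

lemma Rep.ind {F : Set X} {C D : Set X} (hC : MeasurableSet C) (hD : MeasurableSet D)
    (hCF : C ⊆ F) (hDF : D ⊆ F) : Rep F ((C ×ˢ D).indicator (fun _ => (1 : ℝ))) := by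
  refine ⟨Unit, inferInstance, fun _ => 1, fun _ => C, fun _ => D, fun _ => hC, fun _ => hD,
    fun _ => hCF, fun _ => hDF, ?_⟩
  funext p
  simp

lemma Rep.sub {F : Set X} {r s : X × X → ℝ} (hr : Rep F r) (hs : Rep F s) :
    Rep F (fun p => r p - s p) := by
  have := hr.add (hs.smul (-1))
  refine (congrArg (Rep F) ?_).mp this
  funext p; ring

open Classical in
lemma Rep.abs {F : Set X} (hF : MeasurableSet F) {r : X × X → ℝ} (hr : Rep F r) :
    Rep F (fun p => |r p|) := by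
  obtain ⟨ι, _, b, C, D, h1, h2, h3, h4, rfl⟩ := hr
  let P : (ι → Prop) → Set X := fun w => {x | x ∈ F ∧ ∀ l, (x ∈ C l ↔ w l)}
  let Q : (ι → Prop) → Set X := fun w => {x | x ∈ F ∧ ∀ l, (x ∈ D l ↔ w l)}
  refine ⟨(ι → Prop) × (ι → Prop), inferInstance,
    fun w => |∑ l, b l * (if w.1 l ∧ w.2 l then 1 else 0)|,
    fun w => P w.1, fun w => Q w.2, ?_, ?_, ?_, ?_, ?_⟩
  · intro w
    have : P w.1 = F ∩ ⋂ l, {x | (x ∈ C l ↔ w.1 l)} := by
      ext x; simp [P]
    change MeasurableSet (P w.1)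
    rw [this]
    refine hF.inter (MeasurableSet.iInter (fun l => ?_))
    by_cases hw : w.1 l
    · simpa [hw] using h1 l
    · have e : {x | (x ∈ C l ↔ w.1 l)} = (C l)ᶜ := by ext x; simp [hw]
      rw [e]; exact (h1 l).compl
  · intro w
    have : Q w.2 = F ∩ ⋂ l, {x | (x ∈ D l ↔ w.2 l)} := by
      ext x; simp [Q]
    change MeasurableSet (Q w.2)
    rw [this]
    refine hF.inter (MeasurableSet.iInter (fun l => ?_))
    by_cases hw : w.2 l
    · simpa [hw] using h2 l
    · have e : {x | (x ∈ D l ↔ w.2 l)} = (D l)ᶜ := by ext x; simp [hw]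
      rw [e]; exact (h2 l).compl
  · intro w x hx; exact hx.1
  · intro w x hx; exact hx.1
  · funext p
    by_cases hp : p.1 ∈ F ∧ p.2 ∈ F
    · let w0 : (ι → Prop) × (ι → Prop) := (fun l => p.1 ∈ C l, fun l => p.2 ∈ D l)
      rw [Finset.sum_eq_single w0]
      · have hm : p ∈ P w0.1 ×ˢ Q w0.2 := by
          refine ⟨⟨hp.1, fun l => Iff.rfl⟩, ⟨hp.2, fun l => Iff.rfl⟩⟩
        rw [Set.indicator_of_mem hm, mul_one]
        congr 1
        refine Finset.sum_congr rfl (fun l _ => ?_)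
        congr 1
        by_cases hl : p.1 ∈ C l ∧ p.2 ∈ D l
        · have : p ∈ C l ×ˢ D l := hl
          rw [Set.indicator_of_mem this]
          simp [w0, hl]
        · have : p ∉ C l ×ˢ D l := hl
          rw [Set.indicator_of_notMem this]
          simp only [w0, if_neg hl]
      · intro w _ hw
        have hm : p ∉ P w.1 ×ˢ Q w.2 := by
          rintro ⟨⟨_, h5⟩, ⟨_, h6⟩⟩
          apply hw
          refine Prod.ext ?_ ?_
          · funext l; exact (propext (h5 l)).symm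
          · funext l; exact (propext (h6 l)).symm
        rw [Set.indicator_of_notMem hm, mul_zero]
      · intro h; exact absurd (Finset.mem_univ _) h
    · have h5 : ∀ l, p ∉ C l ×ˢ D l := by
        intro l hl
        exact hp ⟨h3 l hl.1, h4 l hl.2⟩
      have h6 : ∀ w : (ι → Prop) × (ι → Prop), p ∉ P w.1 ×ˢ Q w.2 := by
        intro w hw
        exact hp ⟨hw.1.1, hw.2.1⟩
      simp [Set.indicator_of_notMem (h5 _), Set.indicator_of_notMem (h6 _)]

variable (μ : Measure X) [SigmaFinite μ] (T : X ≃ᵐ X)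

/-- the graph functional -/
noncomputable def I (i : ℕ) (r : X × X → ℝ) : ℝ := ∫ x, r (x, (⇑T)^[i] x) ∂μ

lemma ind_graph {C D : Set X} (i : ℕ) :
    (fun x => (C ×ˢ D).indicator (fun _ => (1 : ℝ)) (x, (⇑T)^[i] x)) =
      (C ∩ (⇑T)^[i] ⁻¹' D).indicator (fun _ => (1 : ℝ)) := by
  funext x
  by_cases h : x ∈ C ∩ (⇑T)^[i] ⁻¹' D
  · rw [Set.indicator_of_mem h, Set.indicator_of_mem]
    exact ⟨h.1, h.2⟩
  · rw [Set.indicator_of_notMem h, Set.indicator_of_notMem]
    exact fun h' => h ⟨h'.1, h'.2⟩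

lemma meas_inter {C D : Set X} (hC : MeasurableSet C) (hD : MeasurableSet D) (i : ℕ) :
    MeasurableSet (C ∩ (⇑T)^[i] ⁻¹' D) :=
  hC.inter ((T.measurable.iterate i) hD)

lemma I_ind {C D : Set X} (hC : MeasurableSet C) (hD : MeasurableSet D) (i : ℕ) :
    I μ T i ((C ×ˢ D).indicator (fun _ => (1 : ℝ))) = μ.real (C ∩ (⇑T)^[i] ⁻¹' D) := by
  unfold I
  rw [ind_graph, integral_indicator (meas_inter T hC hD i)]
  simp

lemma integrable_graph {F : Set X} (hFf : μ F < ∞) {r : X × X → ℝ}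
    (hr : Rep F r) (i : ℕ) : Integrable (fun x => r (x, (⇑T)^[i] x)) μ := by
  obtain ⟨ι, _, b, C, D, h1, h2, h3, h4, rfl⟩ := hr
  refine integrable_finsetSum _ (fun l _ => ?_)
  have : (fun x => b l * (C l ×ˢ D l).indicator (fun _ => (1 : ℝ)) (x, (⇑T)^[i] x)) =
      fun x => b l * (C l ∩ (⇑T)^[i] ⁻¹' D l).indicator (fun _ => (1 : ℝ)) x := by
    funext x
    rw [← ind_graph]
  rw [this]
  refine Integrable.const_mul ?_ _
  rw [integrable_indicator_iff (meas_inter T (h1 l) (h2 l) i)]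
  refine integrableOn_const (ne_of_lt ?_)
  exact lt_of_le_of_lt (measure_mono (Set.inter_subset_left.trans (h3 l))) hFf

lemma I_add {F : Set X} (hFf : μ F < ∞) {r s : X × X → ℝ}
    (hr : Rep F r) (hs : Rep F s) (i : ℕ) :
    I μ T i (fun p => r p + s p) = I μ T i r + I μ T i s :=
  integral_add (integrable_graph μ T hFf hr i) (integrable_graph μ T hFf hs i)

lemma I_sub {F : Set X} (hFf : μ F < ∞) {r s : X × X → ℝ}
    (hr : Rep F r) (hs : Rep F s) (i : ℕ) :
    I μ T i (fun p => r p - s p) = I μ T i r - I μ T i s :=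
  integral_sub (integrable_graph μ T hFf hr i) (integrable_graph μ T hFf hs i)

lemma I_smul (c : ℝ) (r : X × X → ℝ) (i : ℕ) :
    I μ T i (fun p => c * r p) = c * I μ T i r := by
  unfold I
  exact integral_const_mul _ _

lemma I_abs (r : X × X → ℝ) (i : ℕ) :
    |I μ T i r| ≤ I μ T i (fun p => |r p|) := by
  unfold I
  exact abs_integral_le_integral_abs

/-- averages of the graph functionals converge on rectangle-simple functions -/
lemma conv {F : Set X} (hFf : μ F < ∞) (an : ℕ → ℝ)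
    (hW : ∀ A B : Set X, MeasurableSet A → MeasurableSet B → A ⊆ F → B ⊆ F →
      Tendsto (fun n : ℕ => 1 / an n * ∑ i ∈ Finset.range n, μ.real (A ∩ (⇑T)^[i] ⁻¹' B))
        atTop (𝓝 (μ.real A * μ.real B)))
    {r : X × X → ℝ} (hr : Rep F r) :
    Tendsto (fun n : ℕ => 1 / an n * ∑ i ∈ Finset.range n, I μ T i r) atTop
      (𝓝 (∫ p, r p ∂(μ.prod μ))) := by
  obtain ⟨ι, _, b, C, D, h1, h2, h3, h4, rfl⟩ := hr
  have hfin : ∀ l, (μ.prod μ) (C l ×ˢ D l) ≠ ∞ := by
    intro l
    rw [Measure.prod_prod]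
    exact ENNReal.mul_ne_top (ne_top_of_le_ne_top hFf.ne (measure_mono (h3 l)))
      (ne_top_of_le_ne_top hFf.ne (measure_mono (h4 l)))
  have e1 : ∫ p, (∑ l, b l * (C l ×ˢ D l).indicator (fun _ => (1 : ℝ)) p) ∂(μ.prod μ) =
      ∑ l, b l * (μ.real (C l) * μ.real (D l)) := by
    rw [integral_finsetSum]
    · refine Finset.sum_congr rfl (fun l _ => ?_)
      rw [integral_const_mul, integral_indicator ((h1 l).prod (h2 l))]
      simp only [integral_const, MeasurableSet.univ, measureReal_restrict_apply, Set.univ_inter,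
        smul_eq_mul, mul_one]
      rw [measureReal_prod_prod]
    · intro l _
      refine Integrable.const_mul ?_ _
      rw [integrable_indicator_iff ((h1 l).prod (h2 l))]
      exact integrableOn_const (hfin l)
  rw [e1]
  have e2 : ∀ i, I μ T i (fun p => ∑ l, b l * (C l ×ˢ D l).indicator (fun _ => (1 : ℝ)) p) =
      ∑ l, b l * μ.real (C l ∩ (⇑T)^[i] ⁻¹' D l) := by
    intro i
    unfold I
    rw [integral_finsetSum]
    · refine Finset.sum_congr rfl (fun l _ => ?_)
      rw [integral_const_mul]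
      congr 1
      exact I_ind μ T (h1 l) (h2 l) i
    · intro l _
      have hl : Rep F (fun p => b l * (C l ×ˢ D l).indicator (fun _ => (1 : ℝ)) p) :=
        (Rep.ind (h1 l) (h2 l) (h3 l) (h4 l)).smul (b l)
      exact integrable_graph μ T hFf hl i
  have e3 : (fun n : ℕ => 1 / an n * ∑ i ∈ Finset.range n,
        I μ T i (fun p => ∑ l, b l * (C l ×ˢ D l).indicator (fun _ => (1 : ℝ)) p)) =
      fun n => ∑ l, b l * (1 / an n * ∑ i ∈ Finset.range n, μ.real (C l ∩ (⇑T)^[i] ⁻¹' D l)) := by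
    funext n
    simp only [e2]
    rw [Finset.sum_comm, Finset.mul_sum]
    refine Finset.sum_congr rfl (fun l _ => ?_)
    rw [← Finset.mul_sum]
    ring
  rw [e3]
  exact tendsto_finsetSum _ (fun l _ =>
    (hW (C l) (D l) (h1 l) (h2 l) (h3 l) (h4 l)).const_mul (b l))

end Rect

section Core

variable {X : Type v} [MeasurableSpace X] (μ : Measure X) [SigmaFinite μ] (T : X ≃ᵐ X)

/-- powers of the product map -/
def RN (N : ℤ) : X × X → X × X := Prod.map (zp T N) (zp T N)

lemma RN_mp (hT : MeasurePreserving T μ μ) (N : ℤ) :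
    MeasurePreserving (RN T N) (μ.prod μ) (μ.prod μ) :=
  (zp_mp T hT N).prod (zp_mp T hT N)

lemma RN_succ (N : ℤ) (p : X × X) : RN T N (Prod.map T T p) = RN T (N + 1) p := by
  unfold RN
  rw [zp_add, zp_one]
  rfl

lemma RN_zero (p : X × X) : RN T 0 p = p := by
  unfold RN
  rw [zp_zero]
  rfl

/-- partial invariance implies constancy on the square -/
lemma const_of_inv (hT : MeasurePreserving T μ μ) (hR : Ergodic (Prod.map T T) (μ.prod μ))
    {F : Set X} (hF : MeasurableSet F) (g : X × X → ℝ) (hg : Measurable g)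
    (h : ∀ N : ℤ, ∀ᵐ p ∂(μ.prod μ), p ∈ F ×ˢ F → RN T N p ∈ F ×ˢ F → g (RN T N p) = g p) :
    ∃ c, ∀ᵐ p ∂((μ.prod μ).restrict (F ×ˢ F)), g p = c := by
  have key := exists_eventuallyEq_const_of_forall_separating
    (l := ae ((μ.prod μ).restrict (F ×ˢ F))) (f := g) MeasurableSet ?_
  · obtain ⟨c, hc⟩ := key
    exact ⟨c, hc⟩
  intro U hU
  have hFF : MeasurableSet (F ×ˢ F) := hF.prod hF
  set E : Set (X × X) := (F ×ˢ F) ∩ g ⁻¹' U with hE
  have hEm : MeasurableSet E := hFF.inter (hg hU)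
  set S : Set (X × X) := ⋃ N : ℤ, RN T N ⁻¹' E with hS
  have hSm : MeasurableSet S := MeasurableSet.iUnion (fun N => (RN_mp μ T hT N).measurable hEm)
  have hinv : Prod.map T T ⁻¹' S = S := by
    ext p
    simp only [hS, Set.mem_preimage, Set.mem_iUnion, RN_succ]
    constructor
    · rintro ⟨N, hN⟩; exact ⟨N + 1, hN⟩
    · rintro ⟨N, hN⟩; exact ⟨N - 1, by rwa [sub_add_cancel]⟩
  rcases hR.toPreErgodic.measure_self_or_compl_eq_zero hSm hinv with h0 | h0
  · right
    have h1 : ∀ᵐ p ∂(μ.prod μ), p ∉ S := measure_eq_zero_iff_ae_notMem.1 h0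
    filter_upwards [ae_restrict_of_ae h1, ae_restrict_mem hFF] with p h2 h3
    intro h4
    apply h2
    rw [hS, Set.mem_iUnion]
    refine ⟨0, ?_⟩
    rw [Set.mem_preimage, RN_zero]
    exact ⟨h3, h4⟩
  · left
    have h1 : ∀ᵐ p ∂(μ.prod μ), p ∈ S := by
      have := measure_eq_zero_iff_ae_notMem.1 h0
      filter_upwards [this] with p hp
      simpa using hp
    filter_upwards [ae_restrict_of_ae h1, ae_restrict_mem hFF, ae_restrict_of_ae (ae_all_iff.2 h)]
      with p h2 h3 h4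
    rw [hS, Set.mem_iUnion] at h2
    obtain ⟨N, hN⟩ := h2
    have h5 := h4 N h3 hN.1
    have h6 : g (RN T N p) ∈ U := hN.2
    rwa [h5] at h6

lemma Rep.zero_off {F : Set X} {r : X × X → ℝ} (hr : Rep F r) (p : X × X) (hp : p ∉ F ×ˢ F) :
    r p = 0 := by
  obtain ⟨ι, _, b, C, D, h1, h2, h3, h4, rfl⟩ := hr
  refine Finset.sum_eq_zero (fun l _ => ?_)
  have : p ∉ C l ×ˢ D l := fun h => hp ⟨h3 l h.1, h4 l h.2⟩
  rw [Set.indicator_of_notMem this, mul_zero]

/-- the space of combinations that are killed by all graph functionals -/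
def VV {F : Set X} (hFf : μ F < ∞) :
    Submodule ℝ (Lp ℝ 2 ((μ.prod μ).restrict (F ×ˢ F))) where
  carrier := {v | ∃ r, Rep F r ∧ (∀ i, I μ T i r = 0) ∧ v =ᵐ[(μ.prod μ).restrict (F ×ˢ F)] r}
  add_mem' := by
    rintro v w ⟨r, h1, h2, h3⟩ ⟨s, h1', h2', h3'⟩
    refine ⟨fun p => r p + s p, h1.add h1', ?_, ?_⟩
    · intro i
      rw [I_add μ T hFf h1 h1', h2, h2', add_zero]
    · filter_upwards [Lp.coeFn_add v w, h3, h3'] with p a1 a2 a3
      rw [a1, Pi.add_apply, a2, a3]
  zero_mem' := by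
    refine ⟨fun _ => 0, ⟨Empty, inferInstance, fun l => l.elim, fun l => l.elim, fun l => l.elim,
      fun l => l.elim, fun l => l.elim, fun l => l.elim, fun l => l.elim, ?_⟩, ?_, ?_⟩
    · funext p; simp
    · intro i; unfold I; simp
    · exact Lp.coeFn_zero _ _ _
  smul_mem' := by
    rintro c v ⟨r, h1, h2, h3⟩
    refine ⟨fun p => c * r p, h1.smul c, ?_, ?_⟩
    · intro i
      rw [I_smul, h2, mul_zero]
    · filter_upwards [Lp.coeFn_smul c v, h3] with p a1 a2
      rw [a1, Pi.smul_apply, a2, smul_eq_mul]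

/-- elements orthogonal to `VV` are invariant under the partial moves -/
lemma inv_of_orth (hT : MeasurePreserving T μ μ) {F : Set X} (hF : MeasurableSet F)
    (hFf : μ F < ∞) (g : Lp ℝ 2 ((μ.prod μ).restrict (F ×ˢ F))) (hg : g ∈ (VV μ T hFf)ᗮ) (N : ℤ) :
    ∀ᵐ p ∂(μ.prod μ), p ∈ F ×ˢ F → RN T N p ∈ F ×ˢ F → g (RN T N p) = g p := by
  have hFF : MeasurableSet (F ×ˢ F) := hF.prod hF
  have hfin : (μ.prod μ) (F ×ˢ F) < ∞ := by
    rw [Measure.prod_prod]; exact ENNReal.mul_lt_top hFf hFf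
  have hfm : IsFiniteMeasure ((μ.prod μ).restrict (F ×ˢ F)) := ⟨by
    rw [Measure.restrict_apply_univ]; exact hfin⟩
  have hmp := RN_mp μ T hT N
  have hgi : Integrable g ((μ.prod μ).restrict (F ×ˢ F)) :=
    (Lp.memLp g).integrable (by norm_num)
  have hgm : Measurable (g : X × X → ℝ) := (Lp.stronglyMeasurable g).measurable
  set FN : Set X := F ∩ zp T N ⁻¹' F with hFN
  have hFNm : MeasurableSet FN := hF.inter ((zp_mp T hT N).measurable hF)
  have hsub : FN ×ˢ FN ⊆ F ×ˢ F := Set.prod_mono Set.inter_subset_left Set.inter_subset_left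
  have hsub2 : FN ×ˢ FN ⊆ RN T N ⁻¹' (F ×ˢ F) := by
    rintro p ⟨h1, h2⟩
    exact ⟨h1.2, h2.2⟩
  have hfN : IsFiniteMeasure (μ.restrict FN) := ⟨by
    rw [Measure.restrict_apply_univ]
    exact lt_of_le_of_lt (measure_mono Set.inter_subset_left) hFf⟩
  have eprod : (μ.restrict FN).prod (μ.restrict FN) = (μ.prod μ).restrict (FN ×ˢ FN) :=
    Measure.prod_restrict _ _
  have i1 : IntegrableOn g (FN ×ˢ FN) (μ.prod μ) :=
    IntegrableOn.mono_set (show IntegrableOn g (F ×ˢ F) (μ.prod μ) from hgi) hsub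
  have hres := hmp.restrict_preimage hFF
  have i2 : IntegrableOn (fun p => g (RN T N p)) (FN ×ˢ FN) (μ.prod μ) := by
    have h1 : Integrable (g ∘ RN T N) ((μ.prod μ).restrict (RN T N ⁻¹' (F ×ˢ F))) :=
      (hres.integrable_comp hgi.aestronglyMeasurable).2 hgi
    exact IntegrableOn.mono_set (show IntegrableOn (g ∘ RN T N) _ (μ.prod μ) from h1) hsub2
  have hk : Integrable (fun p => g (RN T N p) - g p) ((μ.restrict FN).prod (μ.restrict FN)) := by
    rw [eprod]
    exact i2.sub i1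
  have hz := ae_zero_of_rect (fun p => g (RN T N p) - g p) hk ?_
  · rw [eprod] at hz
    have h1 := (ae_restrict_iff' (hFNm.prod hFNm)).1 hz
    filter_upwards [h1] with p h2 h3 h4
    have h5 : p ∈ FN ×ˢ FN := ⟨⟨h3.1, h4.1⟩, ⟨h3.2, h4.2⟩⟩
    have h6 := h2 h5
    exact sub_eq_zero.1 h6
  · intro C D hC hD
    rw [eprod, Measure.restrict_restrict (hC.prod hD)]
    have e1 : C ×ˢ D ∩ FN ×ˢ FN = (C ∩ FN) ×ˢ (D ∩ FN) := Set.prod_inter_prod
    rw [e1]
    set C1 := C ∩ FN with hC1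
    set D1 := D ∩ FN with hD1
    have hC1m : MeasurableSet C1 := hC.inter hFNm
    have hD1m : MeasurableSet D1 := hD.inter hFNm
    set C2 := zp T (-N) ⁻¹' C1 with hC2
    set D2 := zp T (-N) ⁻¹' D1 with hD2
    have hC2m : MeasurableSet C2 := (zp_mp T hT (-N)).measurable hC1m
    have hD2m : MeasurableSet D2 := (zp_mp T hT (-N)).measurable hD1m
    have eC : zp T N ⁻¹' C2 = C1 := by
      ext x; simp only [hC2, Set.mem_preimage, zp_neg_cancel]
    have eD : zp T N ⁻¹' D2 = D1 := by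
      ext x; simp only [hD2, Set.mem_preimage, zp_neg_cancel]
    have sC1 : C1 ⊆ F := fun x hx => hx.2.1
    have sD1 : D1 ⊆ F := fun x hx => hx.2.1
    have sC2 : C2 ⊆ F := by
      intro x hx
      have h1 : zp T (-N) x ∈ C1 := hx
      have h2 : zp T N (zp T (-N) x) ∈ F := h1.2.2
      rwa [zp_cancel_neg] at h2
    have sD2 : D2 ⊆ F := by
      intro x hx
      have h1 : zp T (-N) x ∈ D1 := hx
      have h2 : zp T N (zp T (-N) x) ∈ F := h1.2.2
      rwa [zp_cancel_neg] at h2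
    have epre : RN T N ⁻¹' (C2 ×ˢ D2) = C1 ×ˢ D1 := by
      rw [← eC, ← eD]; rfl
    have j1 : IntegrableOn (fun p => g (RN T N p)) (C1 ×ˢ D1) (μ.prod μ) :=
      i2.mono_set (Set.prod_mono Set.inter_subset_right Set.inter_subset_right)
    have j2 : IntegrableOn g (C1 ×ˢ D1) (μ.prod μ) :=
      i1.mono_set (Set.prod_mono Set.inter_subset_right Set.inter_subset_right)
    rw [integral_sub j1 j2]
    have hres2 := hmp.restrict_preimage (hC2m.prod hD2m)
    have e2 : ∫ p in C1 ×ˢ D1, g (RN T N p) ∂(μ.prod μ) = ∫ p in C2 ×ˢ D2, g p ∂(μ.prod μ) := by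
      rw [← epre, ← hres2.map_eq, integral_map hres2.measurable.aemeasurable]
      exact hgm.aestronglyMeasurable
    rw [e2]
    -- the vector in VV
    set w : Lp ℝ 2 ((μ.prod μ).restrict (F ×ˢ F)) :=
      indicatorConstLp 2 (hC2m.prod hD2m) (measure_ne_top _ _) (1 : ℝ) -
        indicatorConstLp 2 (hC1m.prod hD1m) (measure_ne_top _ _) (1 : ℝ) with hw
    have hwV : w ∈ VV μ T hFf := by
      refine ⟨fun p => (C2 ×ˢ D2).indicator (fun _ => (1 : ℝ)) p -
        (C1 ×ˢ D1).indicator (fun _ => (1 : ℝ)) p, ?_, ?_, ?_⟩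
      · exact (Rep.ind hC2m hD2m sC2 sD2).sub (Rep.ind hC1m hD1m sC1 sD1)
      · intro i
        have h1 := I_sub μ T hFf (Rep.ind hC2m hD2m sC2 sD2) (Rep.ind hC1m hD1m sC1 sD1) i
        rw [h1, I_ind μ T hC2m hD2m, I_ind μ T hC1m hD1m]
        have h2 : C1 ∩ (⇑T)^[i] ⁻¹' D1 = zp T N ⁻¹' (C2 ∩ (⇑T)^[i] ⁻¹' D2) := by
          rw [← eC, ← eD, ← zp_nat]
          ext x
          simp only [Set.mem_inter_iff, Set.mem_preimage]
          have h3 : zp T N (zp T i x) = zp T i (zp T N x) := by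
            have h4 := congrFun (zp_add T N i) x
            have h5 := congrFun (zp_add T i N) x
            simp only [Function.comp] at h4 h5
            rw [← h4, ← h5, add_comm]
          rw [h3]
        rw [h2, measureReal_def, measureReal_def, (zp_mp T hT N).measure_preimage
          (meas_inter T hC2m hD2m i).nullMeasurableSet, sub_self]
      · filter_upwards [Lp.coeFn_sub (indicatorConstLp 2 (hC2m.prod hD2m) (measure_ne_top _ _) (1 : ℝ))
          (indicatorConstLp 2 (hC1m.prod hD1m) (measure_ne_top _ _) (1 : ℝ)),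
          indicatorConstLp_coeFn (p := 2) (hs := hC2m.prod hD2m)
            (hμs := measure_ne_top ((μ.prod μ).restrict (F ×ˢ F)) _) (c := (1 : ℝ)),
          indicatorConstLp_coeFn (p := 2) (hs := hC1m.prod hD1m)
            (hμs := measure_ne_top ((μ.prod μ).restrict (F ×ˢ F)) _) (c := (1 : ℝ))] with p a1 a2 a3
        rw [hw, a1, Pi.sub_apply, a2, a3]
    have h0 := (Submodule.mem_orthogonal _ _).1 hg w hwV
    rw [hw, inner_sub_left, L2.inner_indicatorConstLp_one, L2.inner_indicatorConstLp_one,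
      Measure.restrict_restrict (hC2m.prod hD2m), Measure.restrict_restrict (hC1m.prod hD1m),
      Set.inter_eq_left.2 (Set.prod_mono sC2 sD2), Set.inter_eq_left.2 (Set.prod_mono sC1 sD1)] at h0
    exact h0

/-- approximation: the centred rectangle indicator is close in mean to a function
killed by all graph functionals -/
lemma approx (hT : MeasurePreserving T μ μ) (hR : Ergodic (Prod.map T T) (μ.prod μ))
    {F : Set X} (hF : MeasurableSet F) (hFf : μ F < ∞) {A B : Set X} (hA : MeasurableSet A)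
    (hB : MeasurableSet B) (hAF : A ⊆ F) (hBF : B ⊆ F) (κ : ℝ)
    (hκ : κ * μ.real F ^ 2 = μ.real A * μ.real B) (ε : ℝ) (hε : 0 < ε) :
    ∃ r, Rep F r ∧ (∀ i, I μ T i r = 0) ∧
      ∫ p, |((A ×ˢ B).indicator (fun _ => (1 : ℝ)) p -
        κ * (F ×ˢ F).indicator (fun _ => (1 : ℝ)) p) - r p| ∂(μ.prod μ) < ε := by
  have hFF : MeasurableSet (F ×ˢ F) := hF.prod hF
  have hfin : (μ.prod μ) (F ×ˢ F) < ∞ := by
    rw [Measure.prod_prod]; exact ENNReal.mul_lt_top hFf hFf
  have hfm : IsFiniteMeasure ((μ.prod μ).restrict (F ×ˢ F)) := ⟨by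
    rw [Measure.restrict_apply_univ]; exact hfin⟩
  set ρ := (μ.prod μ).restrict (F ×ˢ F) with hρ
  set h1 : Lp ℝ 2 ρ := indicatorConstLp 2 (hA.prod hB) (measure_ne_top _ _) (1 : ℝ) with hh1
  set h2 : Lp ℝ 2 ρ := indicatorConstLp 2 hFF (measure_ne_top _ _) (1 : ℝ) with hh2
  set h0 : Lp ℝ 2 ρ := h1 - κ • h2 with hh0
  have hmem : h0 ∈ (VV μ T hFf)ᗮᗮ := by
    rw [Submodule.mem_orthogonal]
    intro g hg
    obtain ⟨c, hc⟩ := const_of_inv μ T hT hR hF (g : X × X → ℝ)
      (Lp.stronglyMeasurable g).measurable (fun N => inv_of_orth μ T hT hF hFf g hg N)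
    rw [real_inner_comm, hh0, inner_sub_left, real_inner_smul_left, hh1, hh2,
      L2.inner_indicatorConstLp_one, L2.inner_indicatorConstLp_one]
    have e1 : ∀ E : Set (X × X), MeasurableSet E → E ⊆ F ×ˢ F →
        ∫ p in E, g p ∂ρ = (μ.prod μ).real E * c := by
      intro E hE hEF
      have : ∫ p in E, g p ∂ρ = ∫ p in E, c ∂ρ :=
        integral_congr_ae (ae_restrict_of_ae hc)
      rw [this, integral_const, smul_eq_mul, hρ, Measure.restrict_restrict hE,
        Set.inter_eq_left.2 hEF, measureReal_restrict_apply_univ]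
    rw [e1 _ (hA.prod hB) (Set.prod_mono hAF hBF), e1 _ hFF subset_rfl,
      measureReal_prod_prod, measureReal_prod_prod]
    linear_combination (-c) * hκ
  rw [Submodule.orthogonal_orthogonal_eq_closure] at hmem
  set one : Lp ℝ 2 ρ := indicatorConstLp 2 MeasurableSet.univ (measure_ne_top _ _) (1 : ℝ) with hone
  have hpos : 0 < ‖one‖ + 1 := by positivity
  obtain ⟨v, hv, hdist⟩ := Metric.mem_closure_iff.1 hmem (ε / (‖one‖ + 1)) (div_pos hε hpos)
  obtain ⟨r, hr, hIr, hvr⟩ := hv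
  refine ⟨r, hr, hIr, ?_⟩
  set fn : X × X → ℝ := fun p => |((A ×ˢ B).indicator (fun _ => (1 : ℝ)) p -
        κ * (F ×ˢ F).indicator (fun _ => (1 : ℝ)) p) - r p| with hfn
  have hoff : ∀ p, p ∉ F ×ˢ F → fn p = 0 := by
    intro p hp
    have hp2 : p ∉ A ×ˢ B := fun h => hp (Set.prod_mono hAF hBF h)
    simp only [hfn, Set.indicator_of_notMem hp, Set.indicator_of_notMem hp2,
      hr.zero_off p hp, mul_zero, sub_zero, abs_zero]
  have e1 : ∫ p, fn p ∂(μ.prod μ) = ∫ p, fn p ∂ρ :=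
    (setIntegral_eq_integral_of_forall_compl_eq_zero hoff).symm
  rw [e1]
  have hae : (fun p => |(h0 - v : Lp ℝ 2 ρ)| p) =ᵐ[ρ] fn := by
    filter_upwards [Lp.coeFn_abs (h0 - v), Lp.coeFn_sub h0 v, Lp.coeFn_sub h1 (κ • h2),
      Lp.coeFn_smul κ h2, hvr,
      indicatorConstLp_coeFn (p := 2) (hs := hA.prod hB)
            (hμs := measure_ne_top ρ _) (c := (1 : ℝ)),
      indicatorConstLp_coeFn (p := 2) (hs := hFF)
            (hμs := measure_ne_top ρ _) (c := (1 : ℝ))] with p a1 a2 a3 a4 a5 a6 a7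
    rw [a1, a2, Pi.sub_apply, a5, hh0, a3, Pi.sub_apply, a4, Pi.smul_apply, hh1, a6, hh2, a7,
      smul_eq_mul]
  have e2 : ∫ p, fn p ∂ρ = inner ℝ one |h0 - v| := by
    rw [hone, L2.inner_indicatorConstLp_one, Measure.restrict_univ]
    exact (integral_congr_ae hae).symm
  rw [e2]
  calc inner ℝ one |h0 - v| ≤ ‖one‖ * ‖|h0 - v|‖ := real_inner_le_norm _ _
    _ = ‖one‖ * dist h0 v := by rw [norm_abs_eq_norm, dist_eq_norm]
    _ ≤ (‖one‖ + 1) * dist h0 v := by
        have := dist_nonneg (x := h0) (y := v)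
        nlinarith
    _ < (‖one‖ + 1) * (ε / (‖one‖ + 1)) := by gcongr
    _ = ε := by field_simp

/-- The main theorem: if `T × T` is ergodic, then the defining property of weak rational
ergodicity for `F` implies that of rational weak mixing for the same `F`. -/
theorem main (hT : MeasurePreserving T μ μ) (hR : Ergodic (Prod.map T T) (μ.prod μ))
    {F : Set X} (hF : MeasurableSet F) (hF0 : 0 < μ F) (hFf : μ F < ∞)
    (hW : ∀ A B : Set X, MeasurableSet A → MeasurableSet B → A ⊆ F → B ⊆ F →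
      Tendsto (fun n : ℕ =>
          1 / a μ T F n * ∑ i ∈ Finset.range n, μ.real ((⇑T)^[i] '' A ∩ B))
        atTop (𝓝 (μ.real A * μ.real B)))
    {A B : Set X} (hA : MeasurableSet A) (hB : MeasurableSet B) (hAF : A ⊆ F) (hBF : B ⊆ F) :
    Tendsto (fun n : ℕ =>
          1 / a μ T F n * ∑ i ∈ Finset.range n,
            |μ.real ((⇑T)^[i] '' A ∩ B) - μ.real A * μ.real B * u μ T F i|)
        atTop (𝓝 0) := by
  have hFr : 0 < μ.real F := ENNReal.toReal_pos hF0.ne' hFf.ne
  have hW' : ∀ A B : Set X, MeasurableSet A → MeasurableSet B → A ⊆ F → B ⊆ F →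
      Tendsto (fun n : ℕ => 1 / a μ T F n * ∑ i ∈ Finset.range n, μ.real (A ∩ (⇑T)^[i] ⁻¹' B))
        atTop (𝓝 (μ.real A * μ.real B)) := by
    intro A B hA hB hAF hBF
    refine (hW A B hA hB hAF hBF).congr (fun n => ?_)
    congr 1
    exact Finset.sum_congr rfl (fun i _ => image_inter_real T hT i hA hB)
  set κ : ℝ := μ.real A * μ.real B / μ.real F ^ 2 with hκ
  have hκ' : κ * μ.real F ^ 2 = μ.real A * μ.real B := by
    rw [hκ]; field_simp
  have hapos : ∀ n, 0 ≤ 1 / a μ T F n := by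
    intro n
    refine one_div_nonneg.2 (Finset.sum_nonneg (fun i _ => ?_))
    unfold u
    positivity
  rw [Metric.tendsto_atTop]
  intro ε hε
  obtain ⟨r, hr, hIr, hlt⟩ := approx μ T hT hR hF hFf hA hB hAF hBF κ hκ' ε hε
  set h0 : X × X → ℝ := fun p => (A ×ˢ B).indicator (fun _ => (1 : ℝ)) p -
        κ * (F ×ˢ F).indicator (fun _ => (1 : ℝ)) p with hh0
  have R1 : Rep F ((A ×ˢ B).indicator (fun _ => (1 : ℝ))) := Rep.ind hA hB hAF hBF
  have R2 : Rep F (fun p => κ * (F ×ˢ F).indicator (fun _ => (1 : ℝ)) p) :=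
    (Rep.ind hF hF subset_rfl subset_rfl).smul κ
  have R0 : Rep F h0 := R1.sub R2
  have Rd : Rep F (fun p => h0 p - r p) := R0.sub hr
  have Ra : Rep F (fun p => |h0 p - r p|) := Rd.abs hF
  have hI0 : ∀ i, I μ T i h0 = μ.real ((⇑T)^[i] '' A ∩ B) - μ.real A * μ.real B * u μ T F i := by
    intro i
    have e1 := I_sub μ T hFf R1 R2 i
    rw [hh0, e1, I_smul, I_ind μ T hA hB, I_ind μ T hF hF, ← image_inter_real T hT i hA hB,
      ← image_inter_real T hT i hF hF, hκ]
    unfold u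
    field_simp
  have hle : ∀ i, |μ.real ((⇑T)^[i] '' A ∩ B) - μ.real A * μ.real B * u μ T F i| ≤
      I μ T i (fun p => |h0 p - r p|) := by
    intro i
    rw [← hI0 i]
    have e1 := I_sub μ T hFf R0 hr i
    rw [hIr i, sub_zero] at e1
    rw [← e1]
    exact I_abs μ T _ i
  have hc := conv μ T hFf (a μ T F) hW' Ra
  have hev := hc.eventually (gt_mem_nhds hlt)
  obtain ⟨n0, hn0⟩ := eventually_atTop.1 hev
  refine ⟨n0, fun n hn => ?_⟩
  have h1 : 1 / a μ T F n * ∑ i ∈ Finset.range n,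
      |μ.real ((⇑T)^[i] '' A ∩ B) - μ.real A * μ.real B * u μ T F i| ≤
      1 / a μ T F n * ∑ i ∈ Finset.range n, I μ T i (fun p => |h0 p - r p|) :=
    mul_le_mul_of_nonneg_left (Finset.sum_le_sum (fun i _ => hle i)) (hapos n)
  have h2 : 0 ≤ 1 / a μ T F n * ∑ i ∈ Finset.range n,
      |μ.real ((⇑T)^[i] '' A ∩ B) - μ.real A * μ.real B * u μ T F i| :=
    mul_nonneg (hapos n) (Finset.sum_nonneg (fun i _ => abs_nonneg _))
  rw [Real.dist_eq, sub_zero, abs_of_nonneg h2]
  exact lt_of_le_of_lt h1 (hn0 n hn)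

/-- power weak mixing gives ergodicity of the Cartesian square -/
lemma sq_of_pwm (h : PowerWeaklyMixing μ T) : Ergodic (Prod.map T T) (μ.prod μ) := by
  have h2 := h 2 (by norm_num) (fun _ => 1) (fun _ => one_ne_zero)
  have he := measurePreserving_finTwoArrow μ
  have h3 := (MeasurePreserving.ergodic_conjugate_iff (e := MeasurableEquiv.finTwoArrow) he
    (f := fun (x : Fin 2 → X) (j : Fin 2) => zp T 1 (x j))).2 h2
  convert h3 using 1
  funext p
  simp only [Function.comp]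
  refine Prod.ext ?_ ?_
  · simp [MeasurableEquiv.finTwoArrow, zp_one]
  · simp [MeasurableEquiv.finTwoArrow, zp_one]

end Core

/-- Every invertible conservative ergodic infinite measure-preserving transformation that is
weakly rationally ergodic and power weakly mixing is rationally weakly mixing. -/
theorem result (X : Type v) [MeasurableSpace X] [StandardBorelSpace X] (μ : Measure X)
    [SigmaFinite μ] (_hinf : μ Set.univ = ∞) (T : X ≃ᵐ X) (hT : MeasurePreserving T μ μ)
    (_hcons : Conservative T μ) (_herg : Ergodic T μ)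
    (hWRE : WeaklyRationallyErgodic μ T) (hPWM : PowerWeaklyMixing μ T) :
    RationallyWeaklyMixing μ T := by
  obtain ⟨F, hF, hF0, hFf, hW⟩ := hWRE
  exact ⟨F, hF, hF0, hFf, fun A B hA hB hAF hBF =>
    main μ T hT (sq_of_pwm μ T hPWM) hF hF0 hFf hW hA hB hAF hBF⟩

end Pool.Agent.Results.MP_0c3574_an.WrePwmRwm
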